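import Mathlib
import Pool.Agent.Lib.MP_1bb0e8_anH56.Defs

/-!
# MP_1bb0e8_an: sets with two distant points, oscillation (helper56)
-/

set_option autoImplicit false

open Filter Topology

namespace SiegelPE

/-- `K` has two points whose distance is at least `d`. -/
def Wide (d : ℝ) (K : Set ℂ) : Prop := ∃ v ∈ K, ∃ w ∈ K, d ≤ ‖v - w‖

/-- The oscillation of `ψ` at the point `t` of the circle, from inside, is at least `e`. -/
def Osc (ψ : ℂ → ℂ) (e : ℝ) (t : Circle) : Prop :=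
  ∀ d : ℝ, 0 < d → ∃ z z' : ℂ, ‖z‖ < 1 ∧ ‖z'‖ < 1 ∧ ‖z - t‖ < d ∧ ‖z' - t‖ < d ∧
    e ≤ ‖ψ z - ψ z'‖

end SiegelPE
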