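import Pool.Agent.Lib.MP_1bb0e8_anK56.Defs

/-! # leaf: the points with large oscillation form a closed set -/

set_option autoImplicit false

open Filter Topology

namespace SiegelPE

theorem isClosed_osc (ψ : ℂ → ℂ) (e : ℝ) : IsClosed {t : Circle | Osc ψ e t} := by
  apply isClosed_of_closure_subset
  intro t ht d hd
  obtain ⟨t', ht', hd'⟩ := Metric.mem_closure_iff.mp ht (d / 2) (by linarith)
  obtain ⟨z, z', h1, h2, h3, h4, h5⟩ := ht' (d / 2) (by linarith)
  have h6 : ‖(t' : ℂ) - t‖ < d / 2 := by
    rw [← dist_eq_norm, dist_comm]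
    exact hd'
  refine ⟨z, z', h1, h2, ?_, ?_, h5⟩
  · have : z - (t : ℂ) = (z - t') + (t' - t) := by ring
    rw [this]
    exact (norm_add_le _ _).trans_lt (by linarith)
  · have : z' - (t : ℂ) = (z' - t') + (t' - t) := by ring
    rw [this]
    exact (norm_add_le _ _).trans_lt (by linarith)

end SiegelPE
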