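import Pool.Agent.Lib.MP_1bb0e8_anK56.Defs

/-! # leaf: a nondegenerate impression gives oscillation -/

set_option autoImplicit false

open Filter Topology

namespace SiegelPE

theorem osc_of_nontrivial (ψ : ℂ → ℂ) (t : Circle) (h : (IS ψ t).Nontrivial) :
    ∃ n : ℕ, Osc ψ (1 / ((n : ℝ) + 1)) t := by
  obtain ⟨v, hv, w, hw, hne⟩ := h
  have hD : 0 < ‖v - w‖ := norm_pos_iff.2 (sub_ne_zero.2 hne)
  obtain ⟨n, hn⟩ := exists_nat_one_div_lt (half_pos hD)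
  refine ⟨n, fun d hd => ?_⟩
  unfold IS at hv hw
  rw [Set.mem_iInter] at hv hw
  obtain ⟨_, ⟨z, hz1, hz2, rfl⟩, hz3⟩ :=
    Metric.mem_closure_iff.1 (hv ⟨d, hd⟩) (‖v - w‖ / 4) (by linarith)
  obtain ⟨_, ⟨z', hz1', hz2', rfl⟩, hz3'⟩ :=
    Metric.mem_closure_iff.1 (hw ⟨d, hd⟩) (‖v - w‖ / 4) (by linarith)
  refine ⟨z, z', hz1, hz1', hz2, hz2', ?_⟩
  rw [dist_eq_norm] at hz3 hz3'
  have e1 : v - w = (v - ψ z) + (ψ z - ψ z') - (w - ψ z') := by ring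
  have h1 : ‖v - w‖ ≤ ‖v - ψ z‖ + ‖ψ z - ψ z'‖ + ‖w - ψ z'‖ := by
    calc ‖v - w‖ = ‖(v - ψ z) + (ψ z - ψ z') - (w - ψ z')‖ := by rw [← e1]
      _ ≤ ‖(v - ψ z) + (ψ z - ψ z')‖ + ‖w - ψ z'‖ := norm_sub_le _ _
      _ ≤ _ := by
        have := norm_add_le (v - ψ z) (ψ z - ψ z')
        linarith
  linarith

end SiegelPE
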