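import Pool.Agent.Lib.MP_1bb0e8_anK56.SqDiam

/-! # leaf: oscillation and squares -/

set_option autoImplicit false

open Filter Topology

namespace SiegelPE

theorem osc_quad (c : ℂ) (ψ : ℂ → ℂ) (hψ : ContinuousOn ψ {z : ℂ | 0 < ‖z‖ ∧ ‖z‖ < 1})
    (t : Circle) {e : ℝ} (he : 0 < e) (h : Osc ψ e t) :
    Osc (fun z => quad c (ψ z)) (e ^ 2 / 8) t := by
  intro d hd
  have hd' : 0 < min d 1 := lt_min hd one_pos
  have hS : ∀ z ∈ Metric.ball (0 : ℂ) 1 ∩ Metric.ball (t : ℂ) (min d 1),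
      ‖z‖ < 1 ∧ ‖z - t‖ < min d 1 := by
    rintro z ⟨h1, h2⟩
    exact ⟨by simpa using h1, by rwa [Metric.mem_ball, dist_eq_norm] at h2⟩
  have hK : IsPreconnected (ψ '' (Metric.ball (0 : ℂ) 1 ∩ Metric.ball (t : ℂ) (min d 1))) := by
    refine IsPreconnected.image ((convex_ball _ _).inter (convex_ball _ _)).isPreconnected ψ
      (hψ.mono ?_)
    intro z hz
    obtain ⟨h1, h2⟩ := hS z hz
    refine ⟨?_, h1⟩
    rw [norm_pos_iff]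
    rintro rfl
    rw [zero_sub, norm_neg, Circle.norm_coe] at h2
    exact absurd (h2.trans_le (min_le_right _ _)) (lt_irrefl _)
  obtain ⟨z, z', hz, hz', hzt, hzt', hzz⟩ := h _ hd'
  have hmem : ∀ y : ℂ, ‖y‖ < 1 → ‖y - t‖ < min d 1 →
      ψ y ∈ ψ '' (Metric.ball (0 : ℂ) 1 ∩ Metric.ball (t : ℂ) (min d 1)) := by
    intro y h1 h2
    refine ⟨y, ⟨by simpa using h1, ?_⟩, rfl⟩
    rwa [Metric.mem_ball, dist_eq_norm]
  obtain ⟨v, ⟨x, hx, rfl⟩, w, ⟨y, hy, rfl⟩, hvw⟩ := quad_wide c _ hK he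
    ⟨ψ z, hmem z hz hzt, ψ z', hmem z' hz' hzt', hzz⟩
  obtain ⟨hx1, hx2⟩ := hS x hx
  obtain ⟨hy1, hy2⟩ := hS y hy
  exact ⟨x, y, hx1, hy1, hx2.trans_le (min_le_left _ _), hy2.trans_le (min_le_left _ _), hvw⟩

end SiegelPE
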