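import Pool.Agent.Lib.MP_1bb0e8_anK56.Defs

/-! # leaf: oscillation and the rotation -/

set_option autoImplicit false

open Filter Topology

namespace SiegelPE

theorem osc_rot (c : ℂ) (l : Circle) (ψ : ℂ → ℂ)
    (he : ∀ z ∈ Metric.ball (0 : ℂ) 1, ψ ((l : ℂ) * z) = quad c (ψ z)) (t : Circle) {e : ℝ}
    (h : Osc (fun z => quad c (ψ z)) e t) : Osc ψ e (l * t) := by
  intro d hd
  obtain ⟨z, z', hz, hz', hzt, hzt', hd'⟩ := h d hd
  have hl : ‖(l : ℂ)‖ = 1 := Circle.norm_coe l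
  have h1 : ∀ u : ℂ, ‖(l : ℂ) * u‖ = ‖u‖ := fun u => by rw [norm_mul, hl, one_mul]
  have h2 : ∀ u : ℂ, ‖(l : ℂ) * u - ((l * t : Circle) : ℂ)‖ = ‖u - t‖ := fun u => by
    rw [Circle.coe_mul, ← mul_sub, h1]
  refine ⟨(l : ℂ) * z, (l : ℂ) * z', ?_, ?_, ?_, ?_, ?_⟩
  · rw [h1]
    exact hz
  · rw [h1]
    exact hz'
  · rw [h2]
    exact hzt
  · rw [h2]
    exact hzt'
  · rw [he z (mem_ball_zero_iff.2 hz), he z' (mem_ball_zero_iff.2 hz')]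
    exact hd'

end SiegelPE
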