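import Pool.Agent.Lib.MP_1bb0e8_anK56.Defs

/-! # leaf: oscillation and the squaring map -/

set_option autoImplicit false

open Filter Topology

namespace SiegelPE

theorem osc_sq (c : ℂ) (u : Circle) (ψ : ℂ → ℂ)
    (he : ∀ z : ℂ, 0 < ‖z‖ → ‖z‖ < 1 → ψ ((u : ℂ) * z ^ 2) = quad c (ψ z)) (t : Circle) {e : ℝ}
    (h : Osc (fun z => quad c (ψ z)) e t) : Osc ψ e (u * t ^ 2) := by
  intro d hd
  obtain ⟨z, z', h1, h2, h3, h4, h5⟩ := h (min (d / 2) 1) (lt_min (by linarith) one_pos)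
  have key : ∀ w : ℂ, ‖w‖ < 1 → ‖w - t‖ < min (d / 2) 1 →
      ‖(u : ℂ) * w ^ 2‖ < 1 ∧ ‖(u : ℂ) * w ^ 2 - ((u * t ^ 2 : Circle) : ℂ)‖ < d ∧
        ψ ((u : ℂ) * w ^ 2) = quad c (ψ w) := by
    intro w hw hwt
    have hw0 : 0 < ‖w‖ := by
      rw [norm_pos_iff]
      rintro rfl
      rw [zero_sub, norm_neg, Circle.norm_coe] at hwt
      exact absurd (lt_of_lt_of_le hwt (min_le_right _ _)) (lt_irrefl _)
    refine ⟨?_, ?_, he w hw0 hw⟩
    · rw [norm_mul, Circle.norm_coe, one_mul, norm_pow]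
      exact pow_lt_one₀ (norm_nonneg _) hw two_ne_zero
    · have h6 : (u : ℂ) * w ^ 2 - ((u * t ^ 2 : Circle) : ℂ) = (u : ℂ) * ((w - t) * (w + t)) := by
        push_cast
        ring
      rw [h6, norm_mul, Circle.norm_coe, one_mul, norm_mul]
      have h7 : ‖w + t‖ < 2 := by
        calc ‖w + t‖ ≤ ‖w‖ + ‖(t : ℂ)‖ := norm_add_le _ _
          _ < 1 + 1 := by rw [Circle.norm_coe]; linarith
          _ = 2 := by norm_num
      have h8 : ‖w - t‖ < d / 2 := lt_of_lt_of_le hwt (min_le_left _ _)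
      nlinarith [norm_nonneg (w - t), norm_nonneg (w + t)]
  obtain ⟨a1, a2, a3⟩ := key z h1 h3
  obtain ⟨b1, b2, b3⟩ := key z' h2 h4
  refine ⟨(u : ℂ) * z ^ 2, (u : ℂ) * z' ^ 2, a1, b1, a2, b2, ?_⟩
  rw [a3, b3]
  exact h5

end SiegelPE
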