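import Pool.Agent.Lib.MP_1bb0e8_anK56.Defs

/-! # leaf: large oscillation gives a large impression -/

set_option autoImplicit false

open Filter Topology

namespace SiegelPE

theorem wide_of_osc (ψ : ℂ → ℂ) (t : Circle) {r B e : ℝ} (hr : r < 1)
    (hB : ∀ z : ℂ, r < ‖z‖ → ‖z‖ < 1 → ‖ψ z‖ ≤ B) (h : Osc ψ e t) : Wide e (IS ψ t) := by
  have hpos : ∀ n : ℕ, 0 < min (1 / ((n : ℝ) + 1)) (1 - r) := fun n =>
    lt_min (by positivity) (by linarith)
  choose z z' h1 h2 h3 h4 h5 using fun n : ℕ => h _ (hpos n)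
  have hnr : ∀ w : ℂ, ‖w - t‖ < 1 - r → r < ‖w‖ := by
    intro w hw
    have h6 : ‖(t : ℂ)‖ ≤ ‖w‖ + ‖w - t‖ := by
      have h7 := norm_sub_le w (w - t)
      have h8 : w - (w - t) = t := by ring
      rw [h8] at h7
      exact h7
    rw [Circle.norm_coe] at h6
    linarith
  have hc : IsCompact (Metric.closedBall (0 : ℂ) B ×ˢ Metric.closedBall (0 : ℂ) B) :=
    (isCompact_closedBall _ _).prod (isCompact_closedBall _ _)
  have hmem : ∀ n : ℕ, (ψ (z n), ψ (z' n)) ∈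
      Metric.closedBall (0 : ℂ) B ×ˢ Metric.closedBall (0 : ℂ) B := by
    intro n
    refine ⟨?_, ?_⟩
    · rw [mem_closedBall_zero_iff]
      exact hB _ (hnr _ (lt_of_lt_of_le (h3 n) (min_le_right _ _))) (h1 n)
    · rw [mem_closedBall_zero_iff]
      exact hB _ (hnr _ (lt_of_lt_of_le (h4 n) (min_le_right _ _))) (h2 n)
  obtain ⟨⟨v, w⟩, -, k, hk, hlim⟩ := hc.tendsto_subseq hmem
  have hv : Tendsto (fun n => ψ (z (k n))) atTop (𝓝 v) :=
    (continuous_fst.tendsto (v, w)).comp hlim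
  have hw : Tendsto (fun n => ψ (z' (k n))) atTop (𝓝 w) :=
    (continuous_snd.tendsto (v, w)).comp hlim
  have hev : ∀ d : ℝ, 0 < d → ∀ᶠ n : ℕ in atTop, 1 / (((k n : ℕ) : ℝ) + 1) < d := by
    intro d hd
    have h6 : Tendsto (fun n : ℕ => 1 / ((n : ℝ) + 1)) atTop (𝓝 0) :=
      tendsto_one_div_add_atTop_nhds_zero_nat
    have h7 := h6.comp hk.tendsto_atTop
    exact h7.eventually (gt_mem_nhds hd)
  refine ⟨v, ?_, w, ?_, ?_⟩
  · refine Set.mem_iInter.mpr fun d => ?_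
    refine mem_closure_of_tendsto hv ?_
    filter_upwards [hev d.1 d.2] with n hn
    exact ⟨z (k n), h1 _, lt_trans (lt_of_lt_of_le (h3 _) (min_le_left _ _)) hn, rfl⟩
  · refine Set.mem_iInter.mpr fun d => ?_
    refine mem_closure_of_tendsto hw ?_
    filter_upwards [hev d.1 d.2] with n hn
    exact ⟨z' (k n), h2 _, lt_trans (lt_of_lt_of_le (h4 _) (min_le_left _ _)) hn, rfl⟩
  · exact ge_of_tendsto (hv.sub hw).norm (Eventually.of_forall fun n => h5 (k n))

end SiegelPE
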