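import Pool.Agent.Lib.MP_1bb0e8_an.Powers

/-! # leaf: rotates of an open set cover the circle -/

set_option autoImplicit false

open Filter Topology

namespace SiegelPE

theorem spread_rot (l : Circle) (hl : ∀ n : ℕ, 0 < n → l ^ n ≠ 1) (A : Set Circle)
    (hA : IsOpen A) (hne : A.Nonempty) :
    ∃ M : ℕ, ∀ t : Circle, ∃ m : ℕ, m ≤ M ∧ ∃ a ∈ A, l ^ m * a = t := by
  have hopen : ∀ m : ℕ, IsOpen {t : Circle | (l ^ m)⁻¹ * t ∈ A} := fun m =>
    hA.preimage (continuous_const.mul continuous_id)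
  have hcover : (Set.univ : Set Circle) ⊆ ⋃ m : ℕ, {t : Circle | (l ^ m)⁻¹ * t ∈ A} := by
    intro t _
    rw [Set.mem_iUnion]
    obtain ⟨a, ha⟩ := hne
    have ho : IsOpen {g : Circle | g⁻¹ * t ∈ A} :=
      hA.preimage (continuous_inv.mul continuous_const)
    have hn : {g : Circle | g⁻¹ * t ∈ A}.Nonempty := by
      refine ⟨t * a⁻¹, ?_⟩
      show (t * a⁻¹)⁻¹ * t ∈ A
      have e : (t * a⁻¹)⁻¹ * t = a := by
        rw [mul_inv_rev, inv_inv, inv_mul_cancel_right]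
      rw [e]
      exact ha
    obtain ⟨g, hg, n, rfl⟩ := (dense_pow l hl).inter_open_nonempty _ ho hn
    exact ⟨n, hg⟩
  obtain ⟨s, hs⟩ := isCompact_univ.elim_finite_subcover _ hopen hcover
  refine ⟨s.sup id, fun t => ?_⟩
  have ht := hs (Set.mem_univ t)
  simp only [Set.mem_iUnion] at ht
  obtain ⟨m, hm, hmt⟩ := ht
  exact ⟨m, Finset.le_sup (f := id) hm, (l ^ m)⁻¹ * t, hmt, mul_inv_cancel_left _ _⟩

end SiegelPE
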