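import Pool.Agent.Lib.MP_1bb0e8_an.Dyadic

/-! # leaf: iterated images of an open set under the squaring map cover the circle -/

set_option autoImplicit false

open Filter Topology

namespace SiegelPE

private theorem iter_sq_k56 (u : Circle) (n : ℕ) (x : Circle) :
    (fun x : Circle => u * x ^ 2)^[n] x = u ^ (2 ^ n - 1) * x ^ (2 ^ n) := by
  induction n with
  | zero => simp
  | succ n ih =>
    rw [Function.iterate_succ_apply', ih]
    show u * (u ^ (2 ^ n - 1) * x ^ (2 ^ n)) ^ 2 = _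
    have h1 : 2 ^ (n + 1) - 1 = (2 ^ n - 1) * 2 + 1 := by
      have := Nat.one_le_two_pow (n := n)
      rw [pow_succ]
      omega
    rw [h1, pow_succ 2 n, mul_pow, ← pow_mul, ← pow_mul, ← mul_assoc, pow_succ' u]

private theorem root_k56 (z : Circle) {n : ℕ} (hn : n ≠ 0) : ∃ x : Circle, x ^ n = z := by
  refine ⟨Circle.exp (Complex.arg z / n), ?_⟩
  have hn' : (n : ℂ) ≠ 0 := by exact_mod_cast hn
  apply Circle.ext
  rw [Circle.coe_pow, Circle.coe_exp, ← Complex.exp_nat_mul]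
  have h1 : (n : ℂ) * (((Complex.arg z / n : ℝ) : ℂ) * Complex.I) =
      ((Complex.arg z : ℝ) : ℂ) * Complex.I := by
    push_cast
    field_simp
  rw [h1, ← Circle.coe_exp, Circle.exp_arg]

theorem spread_sq (u : Circle) (A : Set Circle) (hA : IsOpen A) (hne : A.Nonempty) :
    ∃ M : ℕ, ∀ t : Circle, ∃ a ∈ A, (fun x : Circle => u * x ^ 2)^[M] a = t := by
  have hV : ∀ w : {w : Circle | ∃ m : ℕ, w ^ (2 ^ m) = 1}, IsOpen {x : Circle | w.1 * x ∈ A} :=
    fun w => hA.preimage (continuous_const.mul continuous_id)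
  have hcov : (Set.univ : Set Circle) ⊆
      ⋃ w : {w : Circle | ∃ m : ℕ, w ^ (2 ^ m) = 1}, {x : Circle | w.1 * x ∈ A} := by
    intro x _
    have hopen : IsOpen {w : Circle | w * x ∈ A} :=
      hA.preimage (continuous_id.mul continuous_const)
    have hne' : {w : Circle | w * x ∈ A}.Nonempty := by
      obtain ⟨a, ha⟩ := hne
      exact ⟨a * x⁻¹, by simpa using ha⟩
    obtain ⟨w, hw, hw'⟩ := dense_dyadic.inter_open_nonempty _ hopen hne'
    exact Set.mem_iUnion.2 ⟨⟨w, hw'⟩, hw⟩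
  obtain ⟨F, hF⟩ := isCompact_univ.elim_finite_subcover _ hV hcov
  choose m hm using fun w : {w : Circle | ∃ m : ℕ, w ^ (2 ^ m) = 1} => w.2
  refine ⟨F.sup m, fun t => ?_⟩
  set M := F.sup m with hM
  obtain ⟨x, hx⟩ := root_k56 ((u ^ (2 ^ M - 1))⁻¹ * t) (n := 2 ^ M) (by positivity)
  obtain ⟨w, hwF, hw⟩ := Set.mem_iUnion₂.1 (hF (Set.mem_univ x))
  refine ⟨w.1 * x, hw, ?_⟩
  rw [iter_sq_k56, mul_pow, hx]
  have h1 : w.1 ^ (2 ^ M) = 1 := by
    have h2 : m w ≤ M := Finset.le_sup hwF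
    have h3 : 2 ^ M = 2 ^ (m w) * 2 ^ (M - m w) := by
      rw [← pow_add, Nat.add_sub_cancel' h2]
    rw [h3, pow_mul, hm w, one_pow]
  rw [h1, one_mul, mul_inv_cancel_left]

end SiegelPE
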