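import Pool.Agent.Lib.MP_1bb0e8_anH56.Main
import Pool.Agent.Lib.MP_1bb0e8_anK56.OscWide
import Pool.Agent.Lib.MP_1bb0e8_anK56.OscOf
import Pool.Agent.Lib.MP_1bb0e8_anK56.OscClosed
import Pool.Agent.Lib.MP_1bb0e8_anK56.OscQuad
import Pool.Agent.Lib.MP_1bb0e8_anK56.OscRot
import Pool.Agent.Lib.MP_1bb0e8_anK56.OscSq
import Pool.Agent.Lib.MP_1bb0e8_anK56.SpreadRot
import Pool.Agent.Lib.MP_1bb0e8_anK56.SpreadSq

/-! # assembly (helper56) -/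

set_option autoImplicit false

open Filter Topology

namespace SiegelPE

private theorem osc_mono {ψ : ℂ → ℂ} {e e' : ℝ} {t : Circle} (h : Osc ψ e t) (hle : e' ≤ e) :
    Osc ψ e' t := by
  intro d hd
  obtain ⟨z, z', h1, h2, h3, h4, h5⟩ := h d hd
  exact ⟨z, z', h1, h2, h3, h4, hle.trans h5⟩

private theorem baire_osc (ψ : ℂ → ℂ) (h : ∀ t : Circle, (IS ψ t).Nontrivial) :
    ∃ n : ℕ, (interior {t : Circle | Osc ψ (1 / ((n : ℝ) + 1)) t}).Nonempty := by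
  apply nonempty_interior_of_iUnion_of_closed (fun n => isClosed_osc ψ _)
  rw [Set.eq_univ_iff_forall]
  intro t
  obtain ⟨n, hn⟩ := osc_of_nontrivial ψ t (h t)
  exact Set.mem_iUnion.mpr ⟨n, hn⟩

private theorem chain_rot (c : ℂ) (l : Circle) (ψ : ℂ → ℂ)
    (hψ : ContinuousOn ψ {z : ℂ | 0 < ‖z‖ ∧ ‖z‖ < 1})
    (he : ∀ z ∈ Metric.ball (0 : ℂ) 1, ψ ((l : ℂ) * z) = quad c (ψ z)) {e : ℝ} (he0 : 0 < e)
    (M : ℕ) : ∃ d : ℝ, 0 < d ∧ ∀ m : ℕ, m ≤ M → ∀ t : Circle, Osc ψ e t →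
      Osc ψ d (l ^ m * t) := by
  induction M with
  | zero =>
    refine ⟨e, he0, fun m hm t ht => ?_⟩
    have hm0 : m = 0 := Nat.le_zero.mp hm
    rw [hm0, pow_zero, one_mul]
    exact ht
  | succ M ih =>
    obtain ⟨d, hd, h⟩ := ih
    refine ⟨min d (d ^ 2 / 8), lt_min hd (by positivity), fun m hm t ht => ?_⟩
    rcases Nat.lt_or_ge M m with h1 | h1
    · have hm1 : m = M + 1 := le_antisymm hm h1
      have h2 : l ^ (M + 1) * t = l * (l ^ M * t) := by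
        rw [pow_succ]
        group
      rw [hm1, h2]
      exact osc_mono (osc_rot c l ψ he _ (osc_quad c ψ hψ _ hd (h M le_rfl t ht)))
        (min_le_right _ _)
    · exact osc_mono (h m h1 t ht) (min_le_left _ _)

private theorem chain_sq (c : ℂ) (u : Circle) (ψ : ℂ → ℂ)
    (hψ : ContinuousOn ψ {z : ℂ | 0 < ‖z‖ ∧ ‖z‖ < 1})
    (he : ∀ z : ℂ, 0 < ‖z‖ → ‖z‖ < 1 → ψ ((u : ℂ) * z ^ 2) = quad c (ψ z)) {e : ℝ}
    (he0 : 0 < e) (M : ℕ) : ∃ d : ℝ, 0 < d ∧ ∀ t : Circle, Osc ψ e t →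
      Osc ψ d ((fun x : Circle => u * x ^ 2)^[M] t) := by
  induction M with
  | zero => exact ⟨e, he0, fun t ht => ht⟩
  | succ M ih =>
    obtain ⟨d, hd, h⟩ := ih
    refine ⟨d ^ 2 / 8, by positivity, fun t ht => ?_⟩
    rw [Function.iterate_succ_apply']
    exact osc_sq c u ψ he _ (osc_quad c ψ hψ _ hd (h t ht))

theorem unif_S (c : ℂ) (l : Circle) (hl : ∀ n : ℕ, 0 < n → l ^ n ≠ 1) (ψ : ℂ → ℂ)
    (hψ : ContinuousOn ψ (Metric.ball 0 1))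
    (he : ∀ z ∈ Metric.ball (0 : ℂ) 1, ψ ((l : ℂ) * z) = quad c (ψ z))
    (h : ∀ t : Circle, (IS ψ t).Nontrivial) :
    ∃ d : ℝ, 0 < d ∧ ∀ t : Circle, Wide d (IS ψ t) := by
  have hbd : ∀ z ∈ Metric.ball (0 : ℂ) 1, ‖ψ z‖ ≤ 1 + ‖c‖ := bound_S c l ψ hψ he
  have hψ' : ContinuousOn ψ {z : ℂ | 0 < ‖z‖ ∧ ‖z‖ < 1} :=
    hψ.mono (fun z hz => by rw [mem_ball_zero_iff]; exact hz.2)
  obtain ⟨n, hn⟩ := baire_osc ψ h
  obtain ⟨M, hM⟩ := spread_rot l hl _ isOpen_interior hn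
  obtain ⟨d, hd, hc⟩ := chain_rot c l ψ hψ' he (e := 1 / ((n : ℝ) + 1)) (by positivity) M
  refine ⟨d, hd, fun t => ?_⟩
  obtain ⟨m, hm, a, ha, rfl⟩ := hM t
  have ha' : Osc ψ (1 / ((n : ℝ) + 1)) a := interior_subset ha
  exact wide_of_osc ψ _ (r := 0) (B := 1 + ‖c‖) one_pos
    (fun z _ h1 => hbd z (by rw [mem_ball_zero_iff]; exact h1)) (hc m hm a ha')

theorem unif_E (c : ℂ) (u : Circle) (φ : ℂ → ℂ) (hφ : ContinuousOn φ {z : ℂ | 1 < ‖z‖})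
    (he : ∀ z : ℂ, 1 < ‖z‖ → φ ((u : ℂ) * z ^ 2) = quad c (φ z))
    (h : ∀ t : Circle, (IE φ t).Nontrivial) :
    ∃ d : ℝ, 0 < d ∧ ∀ t : Circle, Wide d (IE φ t) := by
  obtain ⟨B, hB⟩ := bound_E c u φ hφ he
  have hc : ContinuousOn (inn φ) {z : ℂ | 0 < ‖z‖ ∧ ‖z‖ < 1} := cont_inn φ hφ
  have hq : ∀ z : ℂ, 0 < ‖z‖ → ‖z‖ < 1 → inn φ ((u : ℂ) * z ^ 2) = quad c (inn φ z) :=
    fun z h0 h1 => inn_eq c u φ he z h0 h1
  have h' : ∀ t : Circle, (IS (inn φ) t).Nontrivial := fun t => by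
    rw [← IE_inn]
    exact h t
  obtain ⟨n, hn⟩ := baire_osc (inn φ) h'
  obtain ⟨M, hM⟩ := spread_sq u _ isOpen_interior hn
  obtain ⟨d, hd, hch⟩ := chain_sq c u (inn φ) hc hq (e := 1 / ((n : ℝ) + 1)) (by positivity) M
  refine ⟨d, hd, fun t => ?_⟩
  obtain ⟨a, ha, rfl⟩ := hM t
  have ha' : Osc (inn φ) (1 / ((n : ℝ) + 1)) a := interior_subset ha
  rw [IE_inn]
  exact wide_of_osc (inn φ) _ (r := 1 / 4) (B := B) (by norm_num)
    (fun z h0 h1 => bound_inn φ hB z h0 h1) (hch a ha')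

theorem full_S (c : ℂ) (l : Circle) (hl : ∀ n : ℕ, 0 < n → l ^ n ≠ 1) (ψ : ℂ → ℂ)
    (hψ : ContinuousOn ψ (Metric.ball 0 1))
    (he : ∀ z ∈ Metric.ball (0 : ℂ) 1, ψ ((l : ℂ) * z) = quad c (ψ z)) :
    ({t : Circle | (IS ψ t).Subsingleton} ∈ residual Circle ∧
        IsMeagre {t : Circle | (PS ψ t).Nontrivial}) ∨
      (∃ d : ℝ, 0 < d ∧ (∀ t : Circle, Wide d (IS ψ t)) ∧
        {t : Circle | Wide d (PS ψ t)} ∈ residual Circle) := by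
  rcases dich_S c l hl ψ hψ he with h | h
  · exact Or.inl h
  · obtain ⟨d, hd, hw⟩ := unif_S c l hl ψ hψ he h.1
    refine Or.inr ⟨d, hd, hw, ?_⟩
    have hψ' : ContinuousOn ψ {z : ℂ | 0 < ‖z‖ ∧ ‖z‖ < 1} :=
      hψ.mono (fun z hz => by rw [mem_ball_zero_iff]; exact hz.2)
    filter_upwards [collingwood ψ hψ'] with t ht
    have ht' : PS ψ t = IS ψ t := ht
    show Wide d (PS ψ t)
    rw [ht']
    exact hw t

theorem full_E (c : ℂ) (u : Circle) (φ : ℂ → ℂ) (hφ : ContinuousOn φ {z : ℂ | 1 < ‖z‖})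
    (he : ∀ z : ℂ, 1 < ‖z‖ → φ ((u : ℂ) * z ^ 2) = quad c (φ z)) :
    ({t : Circle | (IE φ t).Subsingleton} ∈ residual Circle ∧
        IsMeagre {t : Circle | (PE φ t).Nontrivial}) ∨
      (∃ d : ℝ, 0 < d ∧ (∀ t : Circle, Wide d (IE φ t)) ∧
        {t : Circle | Wide d (PE φ t)} ∈ residual Circle) := by
  rcases dich_E c u φ hφ he with h | h
  · exact Or.inl h
  · obtain ⟨d, hd, hw⟩ := unif_E c u φ hφ he h.1
    refine Or.inr ⟨d, hd, hw, ?_⟩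
    filter_upwards [collingwood (inn φ) (cont_inn φ hφ)] with t ht
    have ht' : PE φ t = IE φ t := by
      rw [PE_inn, IE_inn]
      exact ht
    show Wide d (PE φ t)
    rw [ht']
    exact hw t

end SiegelPE
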