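import Pool.Agent.Lib.MP_1bb0e8_anK56.Defs

/-! # leaf: squares of connected sets -/

set_option autoImplicit false

open Filter Topology

namespace SiegelPE

private theorem quad_sub_norm (c v w : ℂ) : ‖quad c v - quad c w‖ = ‖v - w‖ * ‖v + w‖ := by
  rw [← norm_mul]
  congr 1
  unfold quad
  ring

theorem quad_wide (c : ℂ) (K : Set ℂ) (hK : IsPreconnected K) {e : ℝ} (he : 0 < e)
    (h : Wide e K) : ∃ v ∈ K, ∃ w ∈ K, e ^ 2 / 8 ≤ ‖quad c v - quad c w‖ := by
  obtain ⟨v, hv, w, hw, hvw⟩ := h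
  by_cases hs : e / 4 ≤ ‖v + w‖
  · refine ⟨v, hv, w, hw, ?_⟩
    rw [quad_sub_norm]
    have h1 : e * (e / 4) ≤ ‖v - w‖ * ‖v + w‖ :=
      mul_le_mul hvw hs (by positivity) (norm_nonneg _)
    nlinarith [sq_nonneg e]
  · have hs' : ‖v + w‖ < e / 4 := not_le.mp hs
    have hc : ContinuousOn (fun z : ℂ => ‖z - v‖) K := by fun_prop
    have hsub := hK.intermediate_value hv hw hc
    have hmem : e / 2 ∈ Set.Icc ((fun z : ℂ => ‖z - v‖) v) ((fun z : ℂ => ‖z - v‖) w) := by
      constructor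
      · simp only [sub_self, norm_zero]
        positivity
      · simp only
        rw [norm_sub_rev]
        linarith
    obtain ⟨z, hz, hzv⟩ := hsub hmem
    have hzv' : ‖z - v‖ = e / 2 := hzv
    refine ⟨z, hz, v, hv, ?_⟩
    rw [quad_sub_norm, hzv']
    have h2 : ‖v - w‖ ≤ ‖z - w‖ + ‖z - v‖ := by
      have e1 : v - w = (z - w) - (z - v) := by ring
      rw [e1]
      exact norm_sub_le _ _
    have h3 : ‖z - w‖ ≤ ‖z + v‖ + ‖v + w‖ := by
      have e1 : z - w = (z + v) - (v + w) := by ring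
      rw [e1]
      exact norm_sub_le _ _
    have h4 : e / 4 ≤ ‖z + v‖ := by linarith
    nlinarith [h4, he]

end SiegelPE
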